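import Pool.Agent.Y787.CH.Stm

/-!
# Countable ordinals are heights of well-quasi-ordered ages
-/

namespace Pool.Agent.Y787.CH

open Pool.Agent.Results.MP_2feb70_lc.CountableHeights

universe u

/-- Every countable ordinal is the height of a well-quasi-ordered age. -/
theorem exists_wqo (α : Ordinal.{u}) (hα : α < Ordinal.omega.{u} 1) :
    ∃ (𝒜 : Set (FinStr Sym.{u} arity)) (h𝒜 : IsAge 𝒜) (_ : IsWellFounded (SubAge 𝒜) Below),
      height 𝒜 h𝒜 = α ∧ IsWqo 𝒜 := by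
  obtain ⟨M, _, _, P, hP, hr⟩ := exists_large α hα
  have hwf : IsWellFounded (SubAge (ageL.{u} P)) Below := ⟨wf_ageL hP⟩
  obtain ⟨ℬ, hℬ⟩ := IsWellFounded.mem_range_rank_of_le hr
  obtain ⟨hwf', hrk⟩ := rank_restrict ℬ
  refine ⟨ℬ.1, ℬ.2.1, hwf', ?_, fun S hS => wqo_ageL hP S (fun n => ℬ.2.2 (hS n))⟩
  rw [← hℬ]
  exact hrk ⟨ℬ.1, ℬ.2.1, subset_rfl⟩

/-- A signature with unbounded arities has room for all symbols of `Sym`. -/
theorem exists_inj (I : Type u) (ar : I → ℕ) (h : ∀ m, ∃ i, m ≤ ar i) :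
    ∃ j : Sym.{u} → I, Function.Injective j ∧ ∀ s, arity s ≤ ar (j s) := by
  choose F hF using h
  let g : ℕ → I := fun n => Nat.rec (F 1) (fun n i => F (max (n + 2) (ar i + 1))) n
  have hg0 : g 0 = F 1 := rfl
  have hgs : ∀ n, g (n + 1) = F (max (n + 2) (ar (g n) + 1)) := fun n => rfl
  have h1 : ∀ n, n + 1 ≤ ar (g n) := by
    intro n
    cases n with
    | zero => rw [hg0]; exact hF 1
    | succ n =>
      rw [hgs]
      exact (le_max_left _ _).trans (hF _)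
  have h2 : StrictMono (fun n => ar (g n)) := by
    refine strictMono_nat_of_lt_succ (fun n => ?_)
    change ar (g n) < ar (g (n + 1))
    rw [hgs]
    exact (Nat.lt_succ_self _).trans_le ((le_max_right _ _).trans (hF _))
  refine ⟨fun s => g (Nat.pair s.down.1 s.down.2), ?_, ?_⟩
  · rintro ⟨⟨a, b⟩⟩ ⟨⟨c, d⟩⟩ hs
    have h3 : Nat.pair a b = Nat.pair c d := h2.injective (congrArg ar hs)
    have h4 := Nat.pair_eq_pair.1 h3
    rw [h4.1, h4.2]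
  · intro s
    have h3 : s.down.1 ≤ Nat.pair s.down.1 s.down.2 := Nat.left_le_pair _ _
    exact (Nat.succ_le_succ h3).trans (h1 _)

/-- A well-quasi-ordered age with well-founded `D(𝒜)` has only countably many subages. -/
theorem countable_subages {I : Type u} {ar : I → ℕ} {𝒜 : Set (FinStr I ar)} (h𝒜 : IsAge 𝒜)
    (hwf : IsWellFounded (SubAge 𝒜) Below) (hw : IsWqo 𝒜) : Countable (SubAge 𝒜) := by
  classical
  have hc : Countable 𝒜 := countable_age h𝒜 hwf.wf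
  have key : ∀ ℬ : SubAge 𝒜, ∃ F : Finset 𝒜, ∀ A : 𝒜, A.1 ∈ ℬ.1 ↔ ∀ B ∈ F, ¬ Emb B.1 A.1 := by
    intro ℬ
    by_contra hcon
    push Not at hcon
    obtain ⟨f, hf1, hf2⟩ := exists_seq_of_forall_finset_exists (fun A : 𝒜 => A.1 ∉ ℬ.1)
      (fun A B : 𝒜 => ¬ Emb A.1 B.1) (by
        intro s hs
        obtain ⟨A, hA⟩ := hcon s
        rcases hA with ⟨hA1, B, hB, hBA⟩ | ⟨hA1, hA2⟩
        · exact absurd (ℬ.2.1.hereditary _ _ hA1 hBA) (hs B hB)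
        · exact ⟨A, hA1, hA2⟩)
    obtain ⟨i, j, hij, h⟩ := hw (fun n => (f n).1) (fun n => (f n).2)
    exact hf2 i j hij h
  choose F hF using key
  have hinj : Function.Injective F := by
    intro ℬ 𝒞 h
    apply Subtype.ext
    ext A
    constructor
    · intro hA
      have hA' : A ∈ 𝒜 := ℬ.2.2 hA
      exact (hF 𝒞 ⟨A, hA'⟩).2 (h ▸ (hF ℬ ⟨A, hA'⟩).1 hA)
    · intro hA
      have hA' : A ∈ 𝒜 := 𝒞.2.2 hA
      exact (hF ℬ ⟨A, hA'⟩).2 (h ▸ (hF 𝒞 ⟨A, hA'⟩).1 hA)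
  exact hinj.countable

/-- Assembly from the transfer of ages. -/
theorem attained (tr : t_TR.{u}) (I : Type u) (ar : I → ℕ) (h : ∀ m, ∃ i, m ≤ ar i)
    (α : Ordinal.{u}) (hα : α < Ordinal.omega.{u} 1) :
    ∃ (𝒜 : Set (FinStr I ar)) (h𝒜 : IsAge 𝒜) (_ : IsWellFounded (SubAge 𝒜) Below),
      height 𝒜 h𝒜 = α ∧ IsWqo 𝒜 := by
  obtain ⟨𝒜, h𝒜, hwf, h1, h2⟩ := exists_wqo α hα
  obtain ⟨j, hj, hj'⟩ := exists_inj I ar h
  obtain ⟨𝒜', h𝒜', hwf', h3, h4⟩ := tr Sym I arity ar j hj (fun i => Nat.succ_pos _) hj' 𝒜 h𝒜 hwf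
  exact ⟨𝒜', h𝒜', hwf', h3.trans h1, h4 h2⟩

end Pool.Agent.Y787.CH
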