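import Pool.Agent.Results.MP_2feb70_lc.CountableHeights

/-!
# Heights of ages: wqo ages and arbitrary signatures with unbounded arities
-/

namespace Pool.Agent.Y787.CH

open Pool.Agent.Results.MP_2feb70_lc.CountableHeights

universe u

/-- The class `𝒜` of finite structures is well-quasi-ordered under embeddability: every sequence
of members of `𝒜` has terms `S i`, `S j` with `i < j` such that `S i` embeds into `S j`. In
particular `𝒜` has no infinite antichain. -/
def IsWqo {I : Type u} {ar : I → ℕ} (𝒜 : Set (FinStr I ar)) : Prop :=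
  ∀ S : ℕ → FinStr I ar, (∀ n, S n ∈ 𝒜) → ∃ i j, i < j ∧ Emb (S i) (S j)

/-- Transfer of ages along an injection of signatures which does not lower the arities. -/
def t_TR : Prop := ∀ (I I' : Type u) (ar : I → ℕ) (ar' : I' → ℕ) (j : I → I'),
  Function.Injective j → (∀ i, 0 < ar i) → (∀ i, ar i ≤ ar' (j i)) →
  ∀ (𝒜 : Set (FinStr I ar)) (h𝒜 : IsAge 𝒜) (_ : IsWellFounded (SubAge 𝒜) Below),
    ∃ (𝒜' : Set (FinStr I' ar')) (h𝒜' : IsAge 𝒜') (_ : IsWellFounded (SubAge 𝒜') Below),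
      height 𝒜' h𝒜' = height 𝒜 h𝒜 ∧ (IsWqo 𝒜 → IsWqo 𝒜')

/-- Signatures with relation symbols of arity at most one. -/
def t_UN : Prop := ∀ (I : Type u) (ar : I → ℕ), (∀ i, ar i ≤ 1) →
  ∀ (𝒜 : Set (FinStr I ar)) (h𝒜 : IsAge 𝒜) (_ : IsWellFounded (SubAge 𝒜) Below),
    height 𝒜 h𝒜 < Ordinal.omega0.{u} * Ordinal.omega0.{u}

end Pool.Agent.Y787.CH
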